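import Pool.Agent.N119.PS.Stm2

set_option autoImplicit false

/-!
# PSC2/CNV (helper622): intersection numbers depend only on the equivariant isometry class
-/

namespace Pool.Agent.N622.PSC.CNV

open Pool.Agent.N119.PS Pool.Agent.H472R3 Pool.Agent.H67R3.FSR Pool.Agent.H67R4.SR MeasureTheory

theorem le_of_lin {a b c : ℝ} (h : ∀ n : ℕ, 2 * n * a ≤ 2 * n * b + c) : a ≤ b := by
  by_contra hcon
  push Not at hcon
  obtain ⟨n, hn⟩ := exists_nat_gt (c / (2 * (a - b)))
  have h1 := h n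
  rw [div_lt_iff₀ (by linarith)] at hn
  nlinarith

theorem half (h1 : S_BCL) (h2 : S_BND) {N : ℕ} (hN : 2 ≤ N) (I : FTree N → Current N → ℝ)
    (hI : IsIntersectionForm I) (A B : FTree N) (hA : A.InCV) (hB : B.InCV) (h : A.Same B)
    (μ : Current N) : I A μ ≤ I B μ := by
  obtain ⟨f, hf⟩ := h
  obtain ⟨x⟩ := A.isRTree.nonempty
  have hL : ∀ g, (lenFn B (f x)).L g = (lenFn A x).L g := by
    intro g
    change dist (f x) (g • f x) = dist x (g • x)
    rw [← hf, f.dist_eq]
  have han : ∀ n, an A x μ n = an B (f x) μ n := by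
    intro n
    unfold an
    simp only [hL]
  obtain ⟨C, hC⟩ := h1 N B hB (f x)
  apply le_of_lin (c := 2 * C * μ.meas.real (U 1))
  intro n
  have h3 := (h2 N hN I hI A hA x μ n).1
  have h4 := (h2 N hN I hI B hB (f x) μ n).2 C hC
  rw [han] at h3
  linarith

theorem t (h1 : S_BCL) (h2 : S_BND) : S_CNV := by
  intro N hN I hI A B hA hB h μ
  refine le_antisymm (half h1 h2 hN I hI A B hA hB h μ) (half h1 h2 hN I hI B A hB hA ?_ μ)
  obtain ⟨f, hf⟩ := h
  refine ⟨f.symm, fun g x => ?_⟩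
  rw [IsometryEquiv.symm_apply_eq, hf, IsometryEquiv.apply_symm_apply]

end Pool.Agent.N622.PSC.CNV
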